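import Pool.Agent.Lib_helper33.BigGroup

/-!
# The class of sublattices of normal subgroup lattices is not self-dual

The group `G` is a subgroup of the 27th power of the dihedral group of order 8. Its lattice of
normal subgroups contains three frames (images of the coordinate subgroups of powers of elementary
abelian groups and of a group with elements of order 4) which are tied together by one inclusion.
In the dual lattice the frames of exponent 2 would force, by a Fano type configuration, that
squares vanish in a place where the third frame forces a square different from one.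
-/

set_option autoImplicit false

universe u v

namespace Pool.Agent.Results.MP_011e6c_al.NotSelfDual

/-- A normal subgroup of `G`. -/
@[ext] structure NormalSub (G : Type u) [Group G] where
  /-- the underlying set -/
  carrier : Set G
  one_mem : (1 : G) ∈ carrier
  mul_mem : ∀ {x y : G}, x ∈ carrier → y ∈ carrier → x * y ∈ carrier
  inv_mem : ∀ {x : G}, x ∈ carrier → x⁻¹ ∈ carrier
  conj_mem : ∀ {x : G}, x ∈ carrier → ∀ g : G, g * x * g⁻¹ ∈ carrier

variable {G : Type u} [Group G]

/-- The meet of two normal subgroups is their intersection. -/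
def NormalSub.meet (M N : NormalSub G) : NormalSub G where
  carrier := M.carrier ∩ N.carrier
  one_mem := ⟨M.one_mem, N.one_mem⟩
  mul_mem := fun hx hy => ⟨M.mul_mem hx.1 hy.1, N.mul_mem hx.2 hy.2⟩
  inv_mem := fun hx => ⟨M.inv_mem hx.1, N.inv_mem hx.2⟩
  conj_mem := fun hx g => ⟨M.conj_mem hx.1 g, N.conj_mem hx.2 g⟩

/-- The join of two normal subgroups is their product `M N`. -/
def NormalSub.join (M N : NormalSub G) : NormalSub G where
  carrier := {x | ∃ m ∈ M.carrier, ∃ n ∈ N.carrier, x = m * n}
  one_mem := ⟨1, M.one_mem, 1, N.one_mem, (mul_one 1).symm⟩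
  mul_mem := by
    rintro x y ⟨m, hm, n, hn, rfl⟩ ⟨m', hm', n', hn', rfl⟩
    refine ⟨m * (n * m' * n⁻¹), M.mul_mem hm (M.conj_mem hm' n), n * n', N.mul_mem hn hn', ?_⟩
    group
  inv_mem := by
    rintro x ⟨m, hm, n, hn, rfl⟩
    refine ⟨n⁻¹ * m⁻¹ * n⁻¹⁻¹, M.conj_mem (M.inv_mem hm) n⁻¹, n⁻¹, N.inv_mem hn, ?_⟩
    group
  conj_mem := by
    rintro x ⟨m, hm, n, hn, rfl⟩ g
    refine ⟨g * m * g⁻¹, M.conj_mem hm g, g * n * g⁻¹, N.conj_mem hn g, ?_⟩
    group

/-- The lattice of normal subgroups, ordered by inclusion. -/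
instance : Lattice (NormalSub G) where
  le M N := M.carrier ⊆ N.carrier
  le_refl M := Set.Subset.refl _
  le_trans M N K := Set.Subset.trans
  le_antisymm M N h h' := NormalSub.ext (Set.Subset.antisymm h h')
  inf := NormalSub.meet
  inf_le_left M N := Set.inter_subset_left
  inf_le_right M N := Set.inter_subset_right
  le_inf M N K h h' := Set.subset_inter h h'
  sup := NormalSub.join
  le_sup_left M N := fun x hx => ⟨x, hx, 1, N.one_mem, (mul_one x).symm⟩
  le_sup_right M N := fun x hx => ⟨1, M.one_mem, x, hx, (one_mul x).symm⟩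
  sup_le M N K h h' := by
    rintro x ⟨m, hm, n, hn, rfl⟩
    exact K.mul_mem (h hm) (h' hn)

/-- `L` embeds into `K`: an injective map preserves binary meets and joins. -/
def Embeds (L : Type u) [Lattice L] (K : Type v) [Lattice K] : Prop :=
  ∃ f : L → K, Function.Injective f ∧ (∀ x y, f (x ⊓ y) = f x ⊓ f y) ∧
    ∀ x y, f (x ⊔ y) = f x ⊔ f y

/-- The class `𝒞`: the lattices which embed into the lattice of normal subgroups of a group. -/
def InClass (L : Type v) [Lattice L] : Prop :=
  ∃ (G : Type u) (_ : Group G), Embeds L (NormalSub G)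

/-! ### Comparison with the library -/

open Pool.Agent.Lib_helper33

theorem ns_sup (x y : NS G) (g : G) :
    g ∈ (x ⊔ y : NS G).1 ↔ ∃ m ∈ x.1, ∃ n ∈ y.1, g = m * n := by
  haveI := y.2
  rw [NS.coe_sup, Subgroup.mem_sup_of_normal_right]
  constructor
  · rintro ⟨m, hm, n, hn, h⟩
    exact ⟨m, hm, n, hn, h.symm⟩
  · rintro ⟨m, hm, n, hn, h⟩
    exact ⟨m, hm, n, hn, h.symm⟩

/-- a normal subgroup in the sense of Mathlib -/
def ofNS (x : NS G) : NormalSub G where
  carrier := x.1
  one_mem := x.1.one_mem
  mul_mem := fun hx hy => x.1.mul_mem hx hy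
  inv_mem := fun hx => x.1.inv_mem hx
  conj_mem := fun hx g => x.2.conj_mem _ hx g

def toNS (x : NormalSub G) : NS G :=
  ⟨{ carrier := x.carrier
     mul_mem' := x.mul_mem
     one_mem' := x.one_mem
     inv_mem' := x.inv_mem }, ⟨fun _ hn g => x.conj_mem hn g⟩⟩

theorem ofNS_inj : Function.Injective (ofNS (G := G)) := by
  intro x y h
  apply Subtype.ext
  apply SetLike.coe_injective
  exact congrArg NormalSub.carrier h

theorem toNS_inj : Function.Injective (toNS (G := G)) := by
  intro x y h
  apply NormalSub.ext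
  have h1 : ((toNS x).1 : Set G) = (toNS y).1 := by rw [h]
  exact h1

theorem ofNS_inf (x y : NS G) : ofNS (x ⊓ y) = ofNS x ⊓ ofNS y := by
  apply NormalSub.ext
  rfl

theorem ofNS_sup (x y : NS G) : ofNS (x ⊔ y) = ofNS x ⊔ ofNS y := by
  apply NormalSub.ext
  ext g
  exact ns_sup x y g

theorem toNS_inf (x y : NormalSub G) : toNS (x ⊓ y) = toNS x ⊓ toNS y := by
  apply Subtype.ext
  apply SetLike.coe_injective
  rfl

theorem toNS_sup (x y : NormalSub G) : toNS (x ⊔ y) = toNS x ⊔ toNS y := by
  apply Subtype.ext
  apply SetLike.coe_injective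
  ext g
  exact (ns_sup (toNS x) (toNS y) g).symm

theorem pow_four : ∀ a : D, a ^ 4 = 1 := by decide

/-- There is a finite `2`-group `G` such that the dual of the lattice of all normal subgroups of
`G` embeds into the lattice of normal subgroups of no group (in any universe). So the class `𝒞` is
not self-dual. -/
theorem result : ∃ (G : Type) (_ : Group G), Finite G ∧ IsPGroup 2 G ∧
    InClass.{0, 0} (NormalSub G) ∧ ¬ InClass.{u, 0} (NormalSub G)ᵒᵈ := by
  refine ⟨BG, inferInstance, inferInstance, ?_, ?_, ?_⟩
  · intro x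
    refine ⟨2, ?_⟩
    apply Subtype.ext
    funext i j k
    exact pow_four _
  · exact ⟨BG, inferInstance, id, Function.injective_id, fun _ _ => rfl, fun _ _ => rfl⟩
  · rintro ⟨H, iH, g, ginj, ginf, gsup⟩
    refine no_anti (H := H)
      { g := fun x => (toNS (g (OrderDual.toDual (ofNS x)))).1
        sup := fun x y => ?_
        inf := fun x y => ?_
        nor := fun x => (toNS (g (OrderDual.toDual (ofNS x)))).2 } ?_
    · have h1 : OrderDual.toDual (ofNS (x ⊔ y)) =
          OrderDual.toDual (ofNS x) ⊓ OrderDual.toDual (ofNS y) := by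
        rw [ofNS_sup]; rfl
      rw [h1, ginf, toNS_inf]
      rfl
    · have h1 : OrderDual.toDual (ofNS (x ⊓ y)) =
          OrderDual.toDual (ofNS x) ⊔ OrderDual.toDual (ofNS y) := by
        rw [ofNS_inf]; rfl
      rw [h1, gsup, toNS_sup]
      rfl
    · intro x y h
      exact ofNS_inj (OrderDual.toDual.injective (ginj (toNS_inj (Subtype.ext h))))

end Pool.Agent.Results.MP_011e6c_al.NotSelfDual
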